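import Mathlib
import Pool.Agent.R320.IT.Sq

set_option autoImplicit false

/-!
# The integral test for the gaps around the squares in random models of the primes

Oppermann's conjecture is about the primes nearest to the squares, on both sides.  Consider a random
set of integers which are decided one after the other; only integers coprime to a fixed `Q` can be
chosen, and the conditional probability of choosing `n + 1` (coprime to `Q`) given the past is
`(Q / φ(Q)) / D n`, where `D` varies slowly, `|D (n + 1) - D n| ≤ (K / n) |D n|`, and `D n - log n`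
converges almost surely, to a possibly random limit `C`.  (For `Q = 1`: Cramér's model, `C = 0`, and
the Hawkins random sieve, for which `C` is a non-degenerate random variable.)

Let `a, b ≥ 0` be ANY two functions with `(a(x) + b(x)) / (log x)² → λ`, a finite limit.  The theorem
counts the squares `x²` such that all members below `x²` are at distance at least `a(x)` and all
members above `x²` are at distance at least `b(x)`: if the series
`∑ exp (-(a(x) + b(x)) / (2 log x))` diverges, their number up to `X` is almost surely asymptotic to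
`exp ((λ / 4) (C - Q / (2 φ(Q))))` times the partial sum; if it converges there are almost surely
only finitely many.  (The critical size is `a + b ~ 2 (log x)²`.)
-/

open MeasureTheory Filter
open scoped Topology

namespace Pool.Agent.Results.MP_bf4c7f_nt.IntegralTestAroundSquares

/-- all elements of `S` below `x²` are at distance at least `a` from `x²`, all elements above `x²` are
at distance at least `b` -/
def Far (S : Set ℕ) (x : ℕ) (a b : ℝ) : Prop :=
  (∀ m ∈ S, m < x ^ 2 → a ≤ (x : ℝ) ^ 2 - m) ∧ (∀ m ∈ S, x ^ 2 < m → b ≤ (m : ℝ) - (x : ℝ) ^ 2)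

/-- the number of these `x ≤ X` -/
noncomputable def count (S : Set ℕ) (a b : ℕ → ℝ) (X : ℕ) : ℕ :=
  Set.ncard {x : ℕ | x ≤ X ∧ Far S x (a x) (b x)}

/-- the terms of the test series -/
noncomputable def w (a b : ℕ → ℝ) (x : ℕ) : ℝ := Real.exp (-((a x + b x) / (2 * Real.log x)))

end Pool.Agent.Results.MP_bf4c7f_nt.IntegralTestAroundSquares

open Pool.Agent.Results.MP_bf4c7f_nt.IntegralTestAroundSquares

/-- Let `A n` be the event that `n` belongs to a random set adapted to a filtration `ℱ`, let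
`Q ≥ 1`, let no integer which is not coprime to `Q` be chosen, and let, for `n ≥ n₀` with `n + 1`
coprime to `Q`, the conditional probability of `A (n + 1)` given `ℱ n` be `(Q / φ(Q)) / D n`, where
`D n` is `ℱ n`-measurable, `|D (n + 1) - D n| ≤ (K / n) |D n|` for `n ≥ n₀` and `D n - log n`
converges, almost surely.  Let `0 ≤ a(x) ≤ x²`, `0 ≤ b(x)` and `(a(x) + b(x)) / (log x)² → λ`.  Then
almost surely, `C` being the limit of `D n - log n`: if `∑ w(x)` diverges, the number of the
`x ≤ X` for which the members below and above `x²` are at distance at least `a(x)` and `b(x)`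
respectively, divided by `∑_{x ≤ X} w(x)`, tends to `exp ((λ / 4) (C - Q / (2 φ(Q))))`; if it
converges, there are only finitely many such `x`. -/
theorem Pool.Agent.Results.MP_bf4c7f_nt.IntegralTestAroundSquares.result
    {Ω : Type} [mΩ : MeasurableSpace Ω] (μ : Measure Ω) [IsProbabilityMeasure μ]
    (ℱ : Filtration ℕ mΩ) (A : ℕ → Set Ω) (hA : ∀ n, MeasurableSet[ℱ n] (A n))
    (Q : ℕ) (hQ : 0 < Q) (hcop : ∀ n, ¬ Nat.Coprime n Q → A n = ∅)
    (D : ℕ → Ω → ℝ) (hD : ∀ n, StronglyMeasurable[ℱ n] (D n)) (K : ℝ) (n₀ : ℕ)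
    (hK : ∀ᵐ ω ∂μ, ∀ n, n₀ ≤ n → |D (n + 1) ω - D n ω| ≤ K / n * |D n ω|)
    (hd : ∀ᵐ ω ∂μ, ∀ n, n₀ ≤ n → Nat.Coprime (n + 1) Q →
      (μ[(A (n + 1)).indicator (fun _ => (1 : ℝ)) | ℱ n]) ω = (Q : ℝ) / Nat.totient Q / D n ω)
    (hC : ∀ᵐ ω ∂μ, ∃ C : ℝ, Tendsto (fun n : ℕ => D n ω - Real.log n) atTop (𝓝 C))
    (a b : ℕ → ℝ) (ha0 : ∀ x, 0 ≤ a x) (hb0 : ∀ x, 0 ≤ b x) (ha : ∀ x : ℕ, a x ≤ (x : ℝ) ^ 2) (lam : ℝ)
    (hlam : Tendsto (fun x : ℕ => (a x + b x) / Real.log x ^ 2) atTop (𝓝 lam)) :
    ∀ᵐ ω ∂μ, ∃ C : ℝ, Tendsto (fun n : ℕ => D n ω - Real.log n) atTop (𝓝 C) ∧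
      (¬ Summable (w a b) →
        Tendsto (fun X : ℕ => (count {k | ω ∈ A k} a b X : ℝ) / ∑ x ∈ Finset.range (X + 1), w a b x) atTop
          (𝓝 (Real.exp (lam / 4 * (C - (Q : ℝ) / Nat.totient Q / 2))))) ∧
      (Summable (w a b) → ∀ᶠ x : ℕ in atTop, ¬ Far {k | ω ∈ A k} x (a x) (b x)) := by
  filter_upwards [hC, Pool.Agent.R320.IT.squares (μ := μ) (ℱ := ℱ) (A := A) hA hQ hcop hD hK hd ha0 hb0 ha hlam]
    with ω ⟨C, hC⟩ h
  obtain ⟨h1, h2⟩ := h C hC
  exact ⟨C, hC, h1, h2⟩
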