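import Mathlib
import Pool.Agent.R528.RM.Opp3

set_option autoImplicit false

/-!
# Oppermann's intervals in random models of the primes: the exact size of the fluctuations

Oppermann's conjecture asks for a prime strictly between `x² - x` and `x²`, and one strictly between
`x²` and `x² + x`.  We study these intervals in EVERY sequential random model of the primes: the
integers are decided one after the other, only integers coprime to a fixed `Q` can be chosen, and the
conditional probability of choosing `n + 1` (coprime to `Q`) given the past is asymptotic to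
`(Q / φ(Q)) / log n`; no independence is assumed (for `Q = 1` Cramér's model and the Hawkins random
sieve are examples).  Let `N(x)` be the number of members in one of the two intervals and `C(x)` the
sum of the conditional probabilities of the integers of that interval.  Almost surely

* `N(x) ~ x / (2 log x)`, so the analogue of Oppermann's conjecture holds for all large `x`;
* `|N(x) - C(x)| < (1 + ε) √x` for all large `x`, and this is best possible in both directions:
  `N(x) - C(x) > (1 - ε) √x` for infinitely many `x`, and `N(x) - C(x) < -(1 - ε) √x` for infinitely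
  many `x`.

So the largest deviations of the number of members of Oppermann's intervals from the prediction are of
the exact size `√x`.
-/

open MeasureTheory Filter
open scoped Topology

namespace Pool.Agent.Results.MP_bf4c7f_nt.OppermannDeviationsSievedModels

/-- the number of members of `S` strictly between `a` and `b` -/
noncomputable def between (S : Set ℕ) (a b : ℕ) : ℕ := Set.ncard {k : ℕ | k ∈ S ∧ a < k ∧ k < b}

/-- the sum of the conditional probabilities, given the past, of the integers strictly between `a`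
and `b` -/
noncomputable def compensator {Ω : Type} [mΩ : MeasurableSpace Ω] (μ : Measure Ω)
    (ℱ : Filtration ℕ mΩ) (A : ℕ → Set Ω) (a b : ℕ) (ω : Ω) : ℝ :=
  ∑ k ∈ Finset.Ioo a b, (μ[(A k).indicator (fun _ => (1 : ℝ)) | ℱ (k - 1)]) ω

/-- the deviation from the prediction -/
noncomputable def deviation {Ω : Type} [mΩ : MeasurableSpace Ω] (μ : Measure Ω)
    (ℱ : Filtration ℕ mΩ) (A : ℕ → Set Ω) (a b : ℕ) (ω : Ω) : ℝ :=
  (between {k | ω ∈ A k} a b : ℝ) - compensator μ ℱ A a b ω

open Pool.Agent.R528.RM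

variable {Ω : Type} {m0 : MeasurableSpace Ω} {μ : Measure Ω} {ℱ : Filtration ℕ m0} {A : ℕ → Set Ω}

lemma between_eq (ω : Ω) (a b : ℕ) : (between {k | ω ∈ A k} a b : ℝ) = ∑ n ∈ Finset.Ioo a b, In A n ω := by
  classical
  unfold between In
  have h1 : {k : ℕ | k ∈ {k | ω ∈ A k} ∧ a < k ∧ k < b} = ((Finset.Ioo a b).filter (fun k => ω ∈ A k) : Finset ℕ) := by
    ext k
    simp only [Set.mem_ofPred_eq, Finset.coe_filter, Finset.mem_Ioo]
    tauto
  rw [h1, Set.ncard_coe_finset, Finset.card_filter]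
  push_cast
  refine Finset.sum_congr rfl fun n _ => ?_
  by_cases h : ω ∈ A n <;> simp [h]

lemma WRj_Ioo {T h : ℕ → ℕ} {a b : ℕ → ℕ} {j : ℕ} (h1 : a j = T j) (h2 : b j = T j + h j + 1) :
    WRj T h j = Finset.Ioo (a j) (b j) := by
  unfold WRj
  ext n
  rw [Finset.mem_Ico, Finset.mem_Ioo, h1, h2]
  omega

lemma comp_eq (a b : ℕ) (ω : Ω) : compensator μ ℱ A a b ω = ∑ n ∈ Finset.Ioo a b, dens μ ℱ A (n - 1) ω := by
  unfold compensator dens
  refine Finset.sum_congr rfl fun n hn => ?_
  have h1 := Finset.mem_Ioo.1 hn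
  obtain ⟨m, rfl⟩ : ∃ m, n = m + 1 := ⟨n - 1, by omega⟩
  rw [Nat.add_sub_cancel]

lemma dev_eq (a b : ℕ) (ω : Ω) : deviation μ ℱ A a b ω = CS μ ℱ A (Finset.Ioo a b) ω := by
  unfold deviation CS
  rw [between_eq, comp_eq, Finset.sum_sub_distrib]

/-- the parameters of the windows -/
lemma modr_of {T : ℕ → ℕ} (h1 : ∀ᶠ j in atTop, j ^ 2 ≤ 2 * T j) (h2 : ∀ᶠ j in atTop, T j ≤ j ^ 2)
    (h3 : ∀ᶠ j in atTop, T j + (j - 1) ≤ T (j + 1)) :
    Modr T (fun j => j - 1) ∧
      Tendsto (fun j : ℕ => (((j - 1 : ℕ) : ℝ) / Real.log (T j)) / ((j : ℝ) / Real.log j)) atTop (𝓝 (1 / 2)) := by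
  have hsq : ∀ j : ℕ, Real.log ((j : ℝ) ^ 2) = 2 * Real.log j := fun j => by
    rw [Real.log_pow]
    norm_num
  have hl : ∀ᶠ j : ℕ in atTop, 2 * Real.log j - Real.log 2 ≤ Real.log (T j) ∧ Real.log (T j) ≤ 2 * Real.log j := by
    filter_upwards [h1, h2, eventually_gt_atTop 0] with j g1 g2 g3
    have hj : (0 : ℝ) < j := by exact_mod_cast g3
    have g1' : (j : ℝ) ^ 2 ≤ 2 * T j := by exact_mod_cast g1
    have g2' : (T j : ℝ) ≤ (j : ℝ) ^ 2 := by exact_mod_cast g2
    have hT : (0 : ℝ) < T j := by nlinarith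
    constructor
    · have := Real.log_le_log (by positivity) g1'
      rw [hsq, Real.log_mul (by norm_num) hT.ne'] at this
      linarith
    · have := Real.log_le_log hT g2'
      rwa [hsq] at this
  have hr : Tendsto (fun j : ℕ => Real.log (T j) / Real.log j) atTop (𝓝 2) := by
    have e1 : Tendsto (fun j : ℕ => 2 - Real.log 2 / Real.log j) atTop (𝓝 2) := by
      have := (tendsto_const_nhds (x := Real.log 2)).div_atTop tendsto_log
      have := this.const_sub 2
      rwa [sub_zero] at this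
    refine tendsto_of_tendsto_of_tendsto_of_le_of_le' e1 tendsto_const_nhds ?_ ?_
    · filter_upwards [hl, ev_log 1] with j g1 g2
      have g3 : 0 < Real.log (j : ℝ) := by linarith
      rw [le_div_iff₀ g3, sub_mul, div_mul_cancel₀ _ g3.ne']
      exact g1.1
    · filter_upwards [hl, ev_log 1] with j g1 g2
      have g3 : 0 < Real.log (j : ℝ) := by linarith
      rw [div_le_iff₀ g3]
      exact g1.2
  have hbig : Tendsto (fun j : ℕ => Real.log (T j)) atTop atTop := by
    refine tendsto_atTop_mono' atTop ?_ tendsto_log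
    filter_upwards [hl, ev_log (Real.log 2)] with j g1 g2
    linarith [g1.1]
  have hc : Tendsto (fun j : ℕ => (((j - 1 : ℕ) : ℝ)) / j) atTop (𝓝 1) := by
    have e1 : Tendsto (fun j : ℕ => 1 - 1 / (j : ℝ)) atTop (𝓝 1) := by
      have := (tendsto_const_nhds (x := (1 : ℝ))).div_atTop tendsto_natCast_atTop_atTop
      have := this.const_sub 1
      rwa [sub_zero] at this
    refine e1.congr' ?_
    filter_upwards [eventually_gt_atTop 0] with j hj
    have hj' : (0 : ℝ) < j := by exact_mod_cast hj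
    rw [Nat.cast_sub (by omega)]
    field_simp
    simp
  have hu : Tendsto (fun j : ℕ => (((j - 1 : ℕ) : ℝ) / Real.log (T j)) / ((j : ℝ) / Real.log j)) atTop (𝓝 (1 / 2)) := by
    have := hc.mul (hr.inv₀ two_ne_zero)
    rw [one_mul, ← one_div] at this
    refine this.congr' ?_
    filter_upwards [hbig.eventually_gt_atTop 0, ev_log 1, eventually_gt_atTop 0] with j g1 g2 g3
    have hj : (0 : ℝ) < j := by exact_mod_cast g3
    have g4 : 0 < Real.log (j : ℝ) := by linarith
    rw [inv_div]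
    field_simp
  refine ⟨⟨hbig, ?_, ?_, h3, ?_⟩, hu⟩
  · apply ratio_of_le (T := T) hbig
    filter_upwards [h1, eventually_ge_atTop 2] with j g1 g2
    nlinarith [Nat.sub_le j 1]
  · -- the windows have many members
    have e1 : Tendsto (fun j : ℕ => (j : ℝ) / Real.log j ^ 2) atTop atTop := by
      have h5 : Tendsto (fun x : ℝ => x / Real.log x ^ 2) atTop atTop := by
        have h6 := (Real.isLittleO_pow_log_id_atTop (n := 2)).tendsto_div_nhds_zero
        have h7 : Tendsto (fun x : ℝ => Real.log x ^ 2 / x) atTop (𝓝[>] 0) := by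
          rw [tendsto_nhdsWithin_iff]
          refine ⟨h6, ?_⟩
          filter_upwards [eventually_gt_atTop 1] with x hx
          have := Real.log_pos hx
          exact Set.mem_Ioi.2 (by positivity)
        refine h7.inv_tendsto_nhdsGT_zero.congr fun x => ?_
        simp only [Pi.inv_apply, inv_div]
      exact h5.comp tendsto_natCast_atTop_atTop
    have e2 := e1.atTop_mul_pos (show (0 : ℝ) < 1 / 2 by norm_num) hu
    refine e2.congr' ?_
    filter_upwards [hbig.eventually_gt_atTop 0, ev_log 1, eventually_gt_atTop 0] with j g1 g2 g3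
    have hj : (0 : ℝ) < j := by exact_mod_cast g3
    have g4 : 0 < Real.log (j : ℝ) := by linarith
    field_simp
  · exact reg_of_asym (u := fun j : ℕ => ((j - 1 : ℕ) : ℝ) / Real.log (T j)) (w := fun j : ℕ => (j : ℝ) / Real.log j) (show (0 : ℝ) < 1 / 2 by norm_num) hu
      (by
        filter_upwards [ev_log 1, eventually_gt_atTop 0] with j g2 g3
        have hj : (0 : ℝ) < j := by exact_mod_cast g3
        have g4 : 0 < Real.log (j : ℝ) := by linarith
        positivity) reg_w

lemma modr_minus : Modr (fun j => j ^ 2 - j) (fun j => j - 1) ∧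
      Tendsto (fun j : ℕ => (((j - 1 : ℕ) : ℝ) / Real.log ((j ^ 2 - j : ℕ) : ℝ)) / ((j : ℝ) / Real.log j)) atTop (𝓝 (1 / 2)) := by
  have e : ∀ j : ℕ, j ≤ j ^ 2 := fun j => by
    rcases Nat.eq_zero_or_pos j with h | h
    · rw [h]; norm_num
    · nlinarith
  refine modr_of (T := fun j => j ^ 2 - j) ?_ ?_ ?_
  · filter_upwards [eventually_ge_atTop 2] with j hj
    have := e j
    have h2 : 2 * j ≤ j ^ 2 := by nlinarith
    omega
  · filter_upwards with j
    omega
  · filter_upwards [eventually_ge_atTop 2] with j hj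
    have := e j
    have h2 : (j + 1) ^ 2 = j ^ 2 + 2 * j + 1 := by ring
    omega

lemma modr_plus : Modr (fun j => j ^ 2) (fun j => j - 1) ∧
      Tendsto (fun j : ℕ => (((j - 1 : ℕ) : ℝ) / Real.log ((j ^ 2 : ℕ) : ℝ)) / ((j : ℝ) / Real.log j)) atTop (𝓝 (1 / 2)) := by
  refine modr_of (T := fun j => j ^ 2) ?_ ?_ ?_
  · filter_upwards with j
    omega
  · filter_upwards with j
    exact le_rfl
  · filter_upwards with j
    have h2 : (j + 1) ^ 2 = j ^ 2 + 2 * j + 1 := by ring
    omega

lemma transfer [IsProbabilityMeasure μ] {T : ℕ → ℕ} (hm : Modr T (fun j => j - 1) ∧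
      Tendsto (fun j : ℕ => (((j - 1 : ℕ) : ℝ) / Real.log (T j)) / ((j : ℝ) / Real.log j)) atTop (𝓝 (1 / 2)))
    {a b : ℕ → ℕ} (hab : ∀ᶠ j in atTop, a j = T j ∧ b j = T j + (j - 1) + 1)
    (hA : ∀ n, MeasurableSet[ℱ n] (A n)) {W : ℕ} (hW : 0 < W)
    (hd : ∀ᵐ ω ∂μ, ∀ ε : ℝ, 0 < ε → ∀ᶠ n : ℕ in atTop, |dens μ ℱ A n ω - rhoW W (n + 1)| ≤ ε * rhoW W (n + 1)) :
    ∀ᵐ ω ∂μ, Tendsto (fun x : ℕ => (between {k | ω ∈ A k} (a x) (b x) : ℝ) / ((x : ℝ) / (2 * Real.log x))) atTop (𝓝 1) ∧
      ∀ ε : ℝ, 0 < ε →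
        (∀ᶠ x : ℕ in atTop, |deviation μ ℱ A (a x) (b x) ω| < (1 + ε) * √x) ∧
        (∃ᶠ x : ℕ in atTop, (1 - ε) * √x < deviation μ ℱ A (a x) (b x) ω) ∧
        (∃ᶠ x : ℕ in atTop, deviation μ ℱ A (a x) (b x) ω < -((1 - ε) * √x)) := by
  obtain ⟨hm1, hm2⟩ := hm
  -- the normalisation
  have hs : Tendsto (fun j : ℕ => √(2 * (((j - 1 : ℕ) : ℝ) / Real.log (T j)) * Real.log j) / √j) atTop (𝓝 1) := by
    have h1 := hm2.const_mul 2
    have h2 : (2 : ℝ) * (1 / 2) = 1 := by norm_num
    rw [h2] at h1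
    have h3 := (Real.continuous_sqrt.tendsto 1).comp h1
    rw [Real.sqrt_one] at h3
    refine h3.congr' ?_
    filter_upwards [hm1.big.eventually_gt_atTop 0, ev_log 1, eventually_gt_atTop 0] with j g1 g2 g3
    have hj : (0 : ℝ) < j := by exact_mod_cast g3
    have g4 : 0 < Real.log (j : ℝ) := by linarith
    simp only [Function.comp]
    rw [← Real.sqrt_div (by positivity)]
    congr 1
    field_simp
  filter_upwards [win_final (μ := μ) hA hW hd hm1] with ω ⟨h1, h2⟩
  have hcong : ∀ᶠ j in atTop, deviation μ ℱ A (a j) (b j) ω = CS μ ℱ A (WRj T (fun j => j - 1) j) ω ∧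
      (between {k | ω ∈ A k} (a j) (b j) : ℝ) = Ncl A (WRj T (fun j => j - 1) j) ω := by
    filter_upwards [hab] with j hj
    have e1 : WRj T (fun j => j - 1) j = Finset.Ioo (a j) (b j) := WRj_Ioo hj.1 hj.2
    rw [e1, dev_eq, between_eq]
    exact ⟨rfl, rfl⟩
  refine ⟨?_, ?_⟩
  · have h3 := h2.mul (hm2.const_mul 2)
    have e : (1 : ℝ) * (2 * (1 / 2)) = 1 := by norm_num
    rw [e] at h3
    refine h3.congr' ?_
    filter_upwards [hcong, (u_tt hm1).eventually_gt_atTop 0, ev_log 1, eventually_gt_atTop 0] with j g1 g2 g3 g4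
    rw [g1.2]
    have hj : (0 : ℝ) < j := by exact_mod_cast g4
    have g5 : 0 < Real.log (j : ℝ) := by linarith
    set u : ℝ := ((j - 1 : ℕ) : ℝ) / Real.log (T j)
    have g2 : 0 < u := g2
    field_simp
  · intro ε hε
    set δ : ℝ := min ε 1 / 3 with hδ
    have hδ0 : 0 < δ := by positivity
    have hδ1 : 3 * δ ≤ ε := by rw [hδ]; linarith [min_le_left ε 1]
    have hδ2 : 3 * δ ≤ 1 := by rw [hδ]; linarith [min_le_right ε 1]
    obtain ⟨g1, g2, g3⟩ := h1 δ hδ0
    have hs1 := hs.eventually (eventually_lt_nhds (show (1 : ℝ) < 1 + δ by linarith))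
    have hs2 := hs.eventually (eventually_gt_nhds (show 1 - δ < (1 : ℝ) by linarith))
    have hp : ∀ᶠ j : ℕ in atTop, 0 < √(j : ℝ) := by
      filter_upwards [eventually_gt_atTop 0] with j hj
      exact Real.sqrt_pos.2 (by exact_mod_cast hj)
    refine ⟨?_, ?_, ?_⟩
    · filter_upwards [hcong, g1, hs1, hp] with j f1 f2 f3 f4
      rw [f1.1]
      rw [div_lt_iff₀ f4] at f3
      refine f2.trans_le ?_
      have f5 := mul_le_mul_of_nonneg_left f3.le (show 0 ≤ 1 + δ by linarith)
      refine f5.trans ?_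
      rw [← mul_assoc]
      apply mul_le_mul_of_nonneg_right _ f4.le
      nlinarith
    · refine (g2.and_eventually (hcong.and (hs2.and hp))).mono fun j ⟨f2, f1, f3, f4⟩ => ?_
      rw [f1.1]
      rw [lt_div_iff₀ f4] at f3
      refine lt_of_le_of_lt ?_ f2
      have f5 := mul_le_mul_of_nonneg_left f3.le (show 0 ≤ 1 - δ by linarith)
      refine le_trans ?_ f5
      rw [← mul_assoc]
      apply mul_le_mul_of_nonneg_right _ f4.le
      nlinarith
    · refine (g3.and_eventually (hcong.and (hs2.and hp))).mono fun j ⟨f2, f1, f3, f4⟩ => ?_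
      rw [f1.1]
      rw [lt_div_iff₀ f4] at f3
      refine lt_of_lt_of_le f2 (neg_le_neg ?_)
      have f5 := mul_le_mul_of_nonneg_left f3.le (show 0 ≤ 1 - δ by linarith)
      refine le_trans ?_ f5
      rw [← mul_assoc]
      apply mul_le_mul_of_nonneg_right _ f4.le
      nlinarith

end Pool.Agent.Results.MP_bf4c7f_nt.OppermannDeviationsSievedModels

open Pool.Agent.Results.MP_bf4c7f_nt.OppermannDeviationsSievedModels

/-- Let `A n` be the event that `n` belongs to a random set adapted to a filtration `ℱ`, let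
`Q ≥ 1`, let no integer which is not coprime to `Q` be chosen, and let the conditional probability of
`A (n + 1)` given `ℱ n`, times `log n`, tend to `Q / φ(Q)` along the `n` with `n + 1` coprime to `Q`,
almost surely.  Then almost surely, for both families of Oppermann's intervals, `(x² - x, x²)` and
`(x², x² + x)`: the number of members of the interval, divided by `x / (2 log x)`, tends to `1`; and
for every `ε > 0` the difference between the number of members and the sum of the conditional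
probabilities of the integers of the interval is smaller than `(1 + ε) √x` in absolute value for all
large `x`, larger than `(1 - ε) √x` for infinitely many `x`, and smaller than `-(1 - ε) √x` for
infinitely many `x`. -/
theorem Pool.Agent.Results.MP_bf4c7f_nt.OppermannDeviationsSievedModels.result
    {Ω : Type} [mΩ : MeasurableSpace Ω] (μ : Measure Ω) [IsProbabilityMeasure μ]
    (ℱ : Filtration ℕ mΩ) (A : ℕ → Set Ω) (hA : ∀ n, MeasurableSet[ℱ n] (A n))
    (Q : ℕ) (hQ : 0 < Q) (hcop : ∀ n, ¬ Nat.Coprime n Q → A n = ∅)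
    (hd : ∀ᵐ ω ∂μ, Tendsto (fun n : ℕ =>
      (μ[(A (n + 1)).indicator (fun _ => (1 : ℝ)) | ℱ n]) ω * Real.log n)
      (atTop ⊓ 𝓟 {n : ℕ | Nat.Coprime (n + 1) Q}) (𝓝 ((Q : ℝ) / Nat.totient Q))) :
    ∀ᵐ ω ∂μ,
      (Tendsto (fun x : ℕ => (between {k | ω ∈ A k} (x ^ 2 - x) (x ^ 2) : ℝ) /
        ((x : ℝ) / (2 * Real.log x))) atTop (𝓝 1) ∧
      ∀ ε : ℝ, 0 < ε →
        (∀ᶠ x : ℕ in atTop, |deviation μ ℱ A (x ^ 2 - x) (x ^ 2) ω| < (1 + ε) * √x) ∧
        (∃ᶠ x : ℕ in atTop, (1 - ε) * √x < deviation μ ℱ A (x ^ 2 - x) (x ^ 2) ω) ∧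
        (∃ᶠ x : ℕ in atTop, deviation μ ℱ A (x ^ 2 - x) (x ^ 2) ω < -((1 - ε) * √x))) ∧
      (Tendsto (fun x : ℕ => (between {k | ω ∈ A k} (x ^ 2) (x ^ 2 + x) : ℝ) /
        ((x : ℝ) / (2 * Real.log x))) atTop (𝓝 1) ∧
      ∀ ε : ℝ, 0 < ε →
        (∀ᶠ x : ℕ in atTop, |deviation μ ℱ A (x ^ 2) (x ^ 2 + x) ω| < (1 + ε) * √x) ∧
        (∃ᶠ x : ℕ in atTop, (1 - ε) * √x < deviation μ ℱ A (x ^ 2) (x ^ 2 + x) ω) ∧
        (∃ᶠ x : ℕ in atTop, deviation μ ℱ A (x ^ 2) (x ^ 2 + x) ω < -((1 - ε) * √x))) := by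
  have hprof := Pool.Agent.R528.RM.dens_profile (μ := μ) (ℱ := ℱ) hA Q hQ hcop hd
  have t1 := transfer (μ := μ) modr_minus (a := fun x => x ^ 2 - x) (b := fun x => x ^ 2) (by
    filter_upwards [eventually_ge_atTop 1] with j hj
    have : j ≤ j ^ 2 := by nlinarith
    refine ⟨rfl, ?_⟩
    show j ^ 2 = j ^ 2 - j + (j - 1) + 1
    omega) hA hQ hprof
  have t2 := transfer (μ := μ) modr_plus (a := fun x => x ^ 2) (b := fun x => x ^ 2 + x) (by
    filter_upwards [eventually_ge_atTop 1] with j hj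
    refine ⟨rfl, ?_⟩
    show j ^ 2 + j = j ^ 2 + (j - 1) + 1
    omega) hA hQ hprof
  filter_upwards [t1, t2] with ω h1 h2
  exact ⟨h1, h2⟩
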