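import Pool.Agent.R526.PW.SqFin

set_option autoImplicit false

/-!
# Oppermann's conjecture for randomly moved primes, in sharp form

Author: helper526.

Fix `0 < δ ≤ 1` and `A ≥ 1`. Every large prime `p` stays where it is with probability `1 - δ`, and moves with
probability `δ` to a uniformly random integer of the short interval `(p, p + W p]`, `W p ~ p / (log p)^A`, independently
of the others. Let `𝒮` be the resulting random set. Almost surely for every `ε > 0` and all large `n` there are elements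
of `𝒮` on both sides of `n²` at distance at most `(2 / δ + ε) (log n)²`; in particular in `(n² - n, n²)` and in
`(n², n² + n)`. If `δ = 1` (all large primes are moved) the constant `2` is sharp, on both sides: almost surely every
dyadic block contains `n` without elements of `𝒮` in `(n², n² + (2 - ε) (log n)²]`, and `n` without elements
of `𝒮` in `[n² - (2 - ε) (log n)², n²)`.

Proof. By the prime number theorem with error term (starting files) a window `(m, m + H]`, `H ≤ (log m)²`, is avoided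
by the moved primes with probability `exp(-(1 + o(1)) δ H / log m)` (if `δ = 1`; for `δ < 1` this is an upper bound).
Borel-Cantelli; disjoint windows are avoided with negative correlation; second moments.
-/

open MeasureTheory ProbabilityTheory Filter Topology

namespace Pool.Agent.Results.MP_bf4c7f_nt.OppermannForMovedPrimes

/-- `W p ~ p / (log p)^A`, the `ξ p` are independent, and for all large primes `p`: `ξ p = p` with probability `1 - δ`,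
and `ξ p = p + j` with probability `δ / W p` for each `1 ≤ j ≤ W p`. -/
def Moved (δ : ℝ) (A : ℕ) (W : ℕ → ℕ) (Ω : Type) [MeasurableSpace Ω] (μ : Measure Ω) (ξ : ℕ → Ω → ℕ) : Prop :=
  Tendsto (fun p : ℕ => (W p : ℝ) / ((p : ℝ) / (Real.log p) ^ A)) atTop (𝓝 1) ∧
  (∀ p, Measurable (ξ p)) ∧ iIndepFun ξ μ ∧ ∃ p₀ : ℕ, ∀ p : ℕ, p.Prime → p₀ ≤ p →
    μ.real {w | ξ p w = p} = 1 - δ ∧ ∀ j : ℕ, 1 ≤ j → j ≤ W p → μ.real {w | ξ p w = p + j} = δ / W p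

/-- the set `𝒮` of all `ξ p`, `p` prime -/
def S {Ω : Type} (ξ : ℕ → Ω → ℕ) (w : Ω) : Set ℕ := {m : ℕ | ∃ p : ℕ, p.Prime ∧ ξ p w = m}

/-- (1) Let `0 < δ ≤ 1`, `A ≥ 1` and `ξ p` as in `Moved`. Almost surely, for all `ε > 0` and all large `n` both intervals
`(n², n² + (2 / δ + ε) (log n)²]` and `[n² - (2 / δ + ε) (log n)², n²)` contain elements of `𝒮`; and for all large `n` both
intervals `(n² - n, n²)` and `(n², n² + n)` contain elements of `𝒮`.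
(2) Let `δ = 1`. Almost surely for all `ε > 0` and all large `k` there is `2^k < n ≤ 2^(k+1)` such that
`(n², n² + (2 - ε) (log n)²]` contains no element of `𝒮`, and there is `2^k < n ≤ 2^(k+1)` such that
`[n² - (2 - ε) (log n)², n²)` contains no element of `𝒮`. -/
theorem result :
    (∀ (δ : ℝ) (A : ℕ), 0 < δ → δ ≤ 1 → 1 ≤ A → ∀ (W : ℕ → ℕ)
      (Ω : Type) [MeasurableSpace Ω] (μ : Measure Ω) [IsProbabilityMeasure μ] (ξ : ℕ → Ω → ℕ), Moved δ A W Ω μ ξ →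
        ∀ᵐ w ∂μ,
          (∀ ε : ℝ, 0 < ε → ∀ᶠ n : ℕ in atTop,
            (∃ m ∈ S ξ w, n ^ 2 < m ∧ (m : ℝ) ≤ (n : ℝ) ^ 2 + (2 / δ + ε) * (Real.log n) ^ 2) ∧
            (∃ m ∈ S ξ w, (n : ℝ) ^ 2 - (2 / δ + ε) * (Real.log n) ^ 2 ≤ m ∧ m < n ^ 2)) ∧
          (∀ᶠ n : ℕ in atTop, (∃ m ∈ S ξ w, n ^ 2 - n < m ∧ m < n ^ 2) ∧ (∃ m ∈ S ξ w, n ^ 2 < m ∧ m < n ^ 2 + n))) ∧
    (∀ (A : ℕ), 1 ≤ A → ∀ (W : ℕ → ℕ)
      (Ω : Type) [MeasurableSpace Ω] (μ : Measure Ω) [IsProbabilityMeasure μ] (ξ : ℕ → Ω → ℕ), Moved 1 A W Ω μ ξ →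
        ∀ᵐ w ∂μ, ∀ ε : ℝ, 0 < ε → ∀ᶠ k : ℕ in atTop,
          (∃ n : ℕ, 2 ^ k < n ∧ n ≤ 2 ^ (k + 1) ∧ ∀ m ∈ S ξ w,
            ¬ (n ^ 2 < m ∧ (m : ℝ) ≤ (n : ℝ) ^ 2 + (2 - ε) * (Real.log n) ^ 2)) ∧
          (∃ n : ℕ, 2 ^ k < n ∧ n ≤ 2 ^ (k + 1) ∧ ∀ m ∈ S ξ w,
            ¬ ((n : ℝ) ^ 2 - (2 - ε) * (Real.log n) ^ 2 ≤ m ∧ m < n ^ 2))) := by
  refine ⟨?_, ?_⟩
  · intro δ A hδ0 hδ1 hA W Ω _ μ _ ξ hM
    obtain ⟨hW, h1, h2, p₀, h3⟩ := hM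
    have h4 : ∀ᵐ w ∂μ, ∀ j : ℕ, ∀ᶠ n : ℕ in atTop,
        (∃ p : ℕ, p.Prime ∧ n ^ 2 < ξ p w ∧ (ξ p w : ℝ) ≤ (n : ℝ) ^ 2 + (2 / δ + 1 / ((j : ℝ) + 1)) * (Real.log n) ^ 2) ∧
        (∃ p : ℕ, p.Prime ∧ (n : ℝ) ^ 2 - (2 / δ + 1 / ((j : ℝ) + 1)) * (Real.log n) ^ 2 ≤ ξ p w ∧ ξ p w < n ^ 2) := by
      rw [ae_all_iff]
      intro j
      exact Pool.Agent.R526.PW.near μ h1 h2 A hA W hW δ hδ0 p₀ h3 _ (by positivity)
    filter_upwards [h4] with w hw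
    refine ⟨?_, ?_⟩
    · intro ε hε
      obtain ⟨j, hj⟩ := exists_nat_one_div_lt hε
      filter_upwards [hw j] with n h5
      obtain ⟨⟨p, hp, a1, a2⟩, ⟨p', hp', b1, b2⟩⟩ := h5
      have h6 := mul_le_mul_of_nonneg_right hj.le (sq_nonneg (Real.log (n : ℝ)))
      exact ⟨⟨ξ p w, ⟨p, hp, rfl⟩, a1, by linarith⟩, ⟨ξ p' w, ⟨p', hp', rfl⟩, by linarith, b2⟩⟩
    · filter_upwards [hw 0, Pool.Agent.R526.PW.logsq_small (2 / δ + 1) (by positivity)] with n h5 h6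
      obtain ⟨⟨p, hp, a1, a2⟩, ⟨p', hp', b1, b2⟩⟩ := h5
      norm_num at a2 b1
      refine ⟨⟨ξ p' w, ⟨p', hp', rfl⟩, ?_, b2⟩, ⟨ξ p w, ⟨p, hp, rfl⟩, a1, ?_⟩⟩
      · have h7 : (n : ℝ) ^ 2 < ξ p' w + n := by linarith
        have h8 : n ^ 2 < ξ p' w + n := by exact_mod_cast h7
        have h9 : n ≤ n ^ 2 := Nat.le_self_pow (by norm_num) n
        omega
      · have h7 : (ξ p w : ℝ) < (n : ℝ) ^ 2 + n := by linarith
        exact_mod_cast h7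
  · intro A hA W Ω _ μ _ ξ hM
    obtain ⟨hW, h1, h2, p₀, h3⟩ := hM
    have h4 : ∀ᵐ w ∂μ, ∀ j : ℕ, ∀ᶠ k : ℕ in atTop,
        (∃ n : ℕ, 2 ^ k < n ∧ n ≤ 2 ^ (k + 1) ∧ ∀ p : ℕ, p.Prime →
          ¬ (n ^ 2 < ξ p w ∧ (ξ p w : ℝ) ≤ (n : ℝ) ^ 2 + (2 - 1 / ((j : ℝ) + 1)) * (Real.log n) ^ 2)) ∧
        (∃ n : ℕ, 2 ^ k < n ∧ n ≤ 2 ^ (k + 1) ∧ ∀ p : ℕ, p.Prime →
          ¬ ((n : ℝ) ^ 2 - (2 - 1 / ((j : ℝ) + 1)) * (Real.log n) ^ 2 ≤ ξ p w ∧ ξ p w < n ^ 2)) := by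
      rw [ae_all_iff]
      intro j
      have h5 : 0 < 1 / ((j : ℝ) + 1) := by positivity
      have h6 : 1 / ((j : ℝ) + 1) ≤ 1 := by
        rw [div_le_one (by positivity)]
        have : (0 : ℝ) ≤ j := Nat.cast_nonneg j
        linarith
      exact Pool.Agent.R526.PW.far μ h1 h2 A hA W hW p₀ h3 _ (by linarith) (by linarith)
    filter_upwards [h4] with w hw ε hε
    obtain ⟨j, hj⟩ := exists_nat_one_div_lt hε
    filter_upwards [hw j] with k h5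
    obtain ⟨⟨n, a1, a2, a3⟩, ⟨n', b1, b2, b3⟩⟩ := h5
    refine ⟨⟨n, a1, a2, ?_⟩, ⟨n', b1, b2, ?_⟩⟩
    · rintro m ⟨p, hp, rfl⟩ ⟨c1, c2⟩
      have h6 := mul_le_mul_of_nonneg_right hj.le (sq_nonneg (Real.log (n : ℝ)))
      exact a3 p hp ⟨c1, by linarith⟩
    · rintro m ⟨p, hp, rfl⟩ ⟨c1, c2⟩
      have h6 := mul_le_mul_of_nonneg_right hj.le (sq_nonneg (Real.log (n' : ℝ)))
      exact b3 p hp ⟨by linarith, c2⟩

end Pool.Agent.Results.MP_bf4c7f_nt.OppermannForMovedPrimes
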