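import Mathlib
import Pool.Agent.R291.RMW.T1

set_option autoImplicit false

/-!
# The nearest members on both sides of the squares in random models of the primes

Oppermann's conjecture says that for every integer `x > 1` there are primes in `(x² - x, x²)` and in
`(x², x² + x)`.  We determine the exact joint extreme behaviour of the distances from `x²` to the
nearest members on both sides in EVERY sequential random model of the primes: the integers are
decided one after the other, only integers coprime to a fixed `Q` can be chosen, and the conditional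
probability of choosing `n + 1` (coprime to `Q`) given the past is asymptotic to
`(Q / φ(Q)) / log n`; no independence is assumed (for `Q = 1` Cramér's model and the Hawkins random
sieve are examples).  Almost surely, the set of limit points of the pair of the two distances,
divided by `(log x)²`, is exactly the triangle with the vertices `(0,0)`, `(2,0)`, `(0,2)`.
-/

open MeasureTheory Filter
open scoped Topology

namespace Pool.Agent.Results.MP_bf4c7f_nt.TriangleOfDistances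

/-- the distance from `x²` to the largest element of `S` below `x²` -/
noncomputable def before (S : Set ℕ) (x : ℕ) : ℕ := sInf {d : ℕ | 1 ≤ d ∧ d ≤ x ^ 2 ∧ x ^ 2 - d ∈ S}

/-- the distance from `x²` to the smallest element of `S` above `x²` -/
noncomputable def after (S : Set ℕ) (x : ℕ) : ℕ := sInf {d : ℕ | 1 ≤ d ∧ x ^ 2 + d ∈ S}

/-- the two distances, divided by `(log x)²` -/
noncomputable def pair (S : Set ℕ) (x : ℕ) : ℝ × ℝ :=
  ((before S x : ℝ) / Real.log x ^ 2, (after S x : ℝ) / Real.log x ^ 2)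

open Pool.Agent.R528.RM Pool.Agent.R291.RMW

variable {Ω : Type} {A : ℕ → Set Ω} {ω : Ω}

lemma win_mem {u v : ℝ} {j a : ℕ} (hj : flq u j + 1 ≤ j ^ 2) :
    (TT2 u j < a ∧ a ≤ TT2 u j + hh2 u v j) ↔ (j ^ 2 - flq u j ≤ a ∧ a ≤ j ^ 2 + flq v j) := by
  unfold TT2 hh2
  omega

lemma win_fin (x j : ℕ) : {a : ℕ | ω ∈ A a ∧ x < a ∧ a ≤ x + j}.Finite :=
  (Set.finite_Iic (x + j)).subset fun _ ha => ha.2.2

lemma empty_of {u v : ℝ} {j : ℕ} (hj : flq u j + 1 ≤ j ^ 2) (h : cnt A (TT2 u j) (hh2 u v j) ω = 0) (a : ℕ)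
    (h1 : j ^ 2 - flq u j ≤ a) (h2 : a ≤ j ^ 2 + flq v j) : ω ∉ A a := by
  rw [cnt_eq_ncard, Set.ncard_eq_zero (win_fin _ _)] at h
  intro ha
  have : a ∈ {a : ℕ | ω ∈ A a ∧ TT2 u j < a ∧ a ≤ TT2 u j + hh2 u v j} := ⟨ha, (win_mem hj).2 ⟨h1, h2⟩⟩
  rw [h] at this
  exact this

lemma exists_of {u v : ℝ} {j : ℕ} (hj : flq u j + 1 ≤ j ^ 2) (h : cnt A (TT2 u j) (hh2 u v j) ω ≠ 0) :
    ∃ a, ω ∈ A a ∧ j ^ 2 - flq u j ≤ a ∧ a ≤ j ^ 2 + flq v j := by
  by_contra hcon
  push Not at hcon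
  apply h
  rw [cnt_eq_ncard, Set.ncard_eq_zero (win_fin _ _)]
  ext a
  simp only [Set.mem_ofPred_eq, Set.mem_empty_iff_false, iff_false]
  rintro ⟨a1, a2⟩
  obtain ⟨a3, a4⟩ := (win_mem hj).1 a2
  have := hcon a a1 a3
  omega

lemma two_of {u v : ℝ} {j : ℕ} (hj : flq u j + 1 ≤ j ^ 2) (h : 2 ≤ cnt A (TT2 u j) (hh2 u v j) ω) :
    ∃ a, ω ∈ A a ∧ j ^ 2 - flq u j ≤ a ∧ a ≤ j ^ 2 + flq v j ∧ a ≠ j ^ 2 := by
  by_contra hcon
  push Not at hcon
  have h1 : {a : ℕ | ω ∈ A a ∧ TT2 u j < a ∧ a ≤ TT2 u j + hh2 u v j} ⊆ {j ^ 2} := by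
    rintro a ⟨a1, a2⟩
    obtain ⟨a3, a4⟩ := (win_mem hj).1 a2
    exact hcon a a1 a3 a4
  have h2 := Set.ncard_le_ncard h1 (Set.finite_singleton _)
  rw [Set.ncard_singleton, ← cnt_eq_ncard] at h2
  omega

lemma ev_room {u : ℝ} (hu : 0 ≤ u) : ∀ᶠ j : ℕ in atTop, flq u j + 1 ≤ j ^ 2 := by
  filter_upwards [flq_small hu one_pos, eventually_ge_atTop 2] with j h1 h2
  have : flq u j ≤ j := by
    rw [one_mul] at h1
    exact_mod_cast h1
  nlinarith

/-- the pair in a small box -/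
lemma box {u v ε : ℝ} (hu : 0 < u) (hv : 0 < v) (hε : 0 < ε) {j : ℕ} (hl : 0 < Real.log (j : ℝ))
    (hj : flq (u + ε) j + 1 ≤ j ^ 2) (h0 : cnt A (TT2 u j) (hh2 u v j) ω = 0)
    (h1 : cnt A (TT2 (u + ε) j) (hh2 (u + ε) v j) ω ≠ 0) (h2 : cnt A (TT2 u j) (hh2 u (v + ε) j) ω ≠ 0) :
    (u < (pair {k | ω ∈ A k} j).1 ∧ (pair {k | ω ∈ A k} j).1 ≤ u + ε) ∧
    (v < (pair {k | ω ∈ A k} j).2 ∧ (pair {k | ω ∈ A k} j).2 ≤ v + ε) := by
  have hL : 0 < Real.log (j : ℝ) ^ 2 := by positivity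
  have hmono : flq u j ≤ flq (u + ε) j := Nat.floor_mono (by nlinarith)
  have hj' : flq u j + 1 ≤ j ^ 2 := by omega
  have hem := empty_of hj' h0
  obtain ⟨a, a1, a2, a3⟩ := exists_of hj h1
  obtain ⟨b, b1, b2, b3⟩ := exists_of hj' h2
  have ha : a < j ^ 2 - flq u j := by
    by_contra hcon
    exact hem a (by omega) a3 a1
  have hb : j ^ 2 + flq v j < b := by
    by_contra hcon
    exact hem b b2 (by omega) b1
  constructor
  · set D : Set ℕ := {d : ℕ | 1 ≤ d ∧ d ≤ j ^ 2 ∧ j ^ 2 - d ∈ {k | ω ∈ A k}} with hD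
    have hmem : j ^ 2 - a ∈ D := ⟨by omega, by omega, by
      rw [show j ^ 2 - (j ^ 2 - a) = a by omega]
      exact a1⟩
    have hle : before {k | ω ∈ A k} j ≤ j ^ 2 - a := Nat.sInf_le hmem
    have hin : before {k | ω ∈ A k} j ∈ D := Nat.sInf_mem ⟨_, hmem⟩
    have hgt : flq u j + 1 ≤ before {k | ω ∈ A k} j := by
      by_contra hcon
      exact hem (j ^ 2 - before {k | ω ∈ A k} j) (by omega) (by omega) hin.2.2
    have hle2 : before {k | ω ∈ A k} j ≤ flq (u + ε) j := by omega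
    unfold pair
    constructor
    · rw [lt_div_iff₀ hL]
      have e1 : u * Real.log (j : ℝ) ^ 2 < flq u j + 1 := Nat.lt_floor_add_one _
      have e2 : ((flq u j + 1 : ℕ) : ℝ) ≤ before {k | ω ∈ A k} j := by exact_mod_cast hgt
      push_cast at e2
      linarith
    · rw [div_le_iff₀ hL]
      have e1 : (flq (u + ε) j : ℝ) ≤ (u + ε) * Real.log (j : ℝ) ^ 2 := Nat.floor_le (by positivity)
      have e2 : (before {k | ω ∈ A k} j : ℝ) ≤ flq (u + ε) j := by exact_mod_cast hle2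
      linarith
  · set D : Set ℕ := {d : ℕ | 1 ≤ d ∧ j ^ 2 + d ∈ {k | ω ∈ A k}} with hD
    have hmem : b - j ^ 2 ∈ D := ⟨by omega, by
      rw [show j ^ 2 + (b - j ^ 2) = b by omega]
      exact b1⟩
    have hle : after {k | ω ∈ A k} j ≤ b - j ^ 2 := Nat.sInf_le hmem
    have hin : after {k | ω ∈ A k} j ∈ D := Nat.sInf_mem ⟨_, hmem⟩
    have hgt : flq v j + 1 ≤ after {k | ω ∈ A k} j := by
      by_contra hcon
      exact hem (j ^ 2 + after {k | ω ∈ A k} j) (by omega) (by omega) hin.2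
    have hle2 : after {k | ω ∈ A k} j ≤ flq (v + ε) j := by omega
    unfold pair
    constructor
    · rw [lt_div_iff₀ hL]
      have e1 : v * Real.log (j : ℝ) ^ 2 < flq v j + 1 := Nat.lt_floor_add_one _
      have e2 : ((flq v j + 1 : ℕ) : ℝ) ≤ after {k | ω ∈ A k} j := by exact_mod_cast hgt
      push_cast at e2
      linarith
    · rw [div_le_iff₀ hL]
      have e1 : (flq (v + ε) j : ℝ) ≤ (v + ε) * Real.log (j : ℝ) ^ 2 := Nat.floor_le (by positivity)
      have e2 : (after {k | ω ∈ A k} j : ℝ) ≤ flq (v + ε) j := by exact_mod_cast hle2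
      linarith

end Pool.Agent.Results.MP_bf4c7f_nt.TriangleOfDistances

open Pool.Agent.Results.MP_bf4c7f_nt.TriangleOfDistances Pool.Agent.R528.RM Pool.Agent.R291.RMW

/-- Let `A n` be the event that `n` belongs to a random set adapted to a filtration `ℱ`, let
`Q ≥ 1`, let no integer which is not coprime to `Q` be chosen, and let the conditional probability of
`A (n + 1)` given `ℱ n`, times `log n`, tend to `Q / φ(Q)` along the `n` with `n + 1` coprime to `Q`,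
almost surely.  Then, almost surely, the set of limit points, as `x → ∞`, of the pair (distance from
`x²` to the largest member below `x²`, distance from `x²` to the smallest member above `x²`), divided
by `(log x)²`, is exactly the triangle `{(u, v) : u ≥ 0, v ≥ 0, u + v ≤ 2}`; and for all large `x`
there are members strictly between `x² - x` and `x²` and strictly between `x²` and `x² + x`. -/
theorem Pool.Agent.Results.MP_bf4c7f_nt.TriangleOfDistances.result
    {Ω : Type} [mΩ : MeasurableSpace Ω] (μ : Measure Ω) [IsProbabilityMeasure μ]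
    (ℱ : Filtration ℕ mΩ) (A : ℕ → Set Ω) (hA : ∀ n, MeasurableSet[ℱ n] (A n))
    (Q : ℕ) (hQ : 0 < Q) (hcop : ∀ n, ¬ Nat.Coprime n Q → A n = ∅)
    (hd : ∀ᵐ ω ∂μ, Tendsto (fun n : ℕ =>
      (μ[(A (n + 1)).indicator (fun _ => (1 : ℝ)) | ℱ n]) ω * Real.log n)
      (atTop ⊓ 𝓟 {n : ℕ | Nat.Coprime (n + 1) Q}) (𝓝 ((Q : ℝ) / Nat.totient Q))) :
    ∀ᵐ ω ∂μ,
      {p : ℝ × ℝ | MapClusterPt p atTop (pair {k | ω ∈ A k})} = {p : ℝ × ℝ | 0 ≤ p.1 ∧ 0 ≤ p.2 ∧ p.1 + p.2 ≤ 2} ∧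
      ∀ᶠ x : ℕ in atTop, (∃ m, ω ∈ A m ∧ x ^ 2 - x < m ∧ m < x ^ 2) ∧ (∃ m, ω ∈ A m ∧ x ^ 2 < m ∧ m < x ^ 2 + x) := by
  have hprof := Pool.Agent.R528.RM.dens_profile (μ := μ) (ℱ := ℱ) hA Q hQ hcop hd
  have H1 : ∀ᵐ ω ∂μ, ∀ u v : ℚ, 0 ≤ (u : ℝ) → 0 ≤ (v : ℝ) → 2 < (u : ℝ) + v →
      ∀ᶠ j : ℕ in atTop, 2 ≤ cnt A (TT2 u j) (hh2 u v j) ω := by
    refine ae_all_iff.2 fun u => ae_all_iff.2 fun v => ?_
    by_cases h : 0 ≤ (u : ℝ) ∧ 0 ≤ (v : ℝ) ∧ 2 < (u : ℝ) + v
    · filter_upwards [tri_ev (μ := μ) (ℱ := ℱ) hA hQ hprof h.1 h.2.1 h.2.2] with ω hω _ _ _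
      exact hω
    · exact Eventually.of_forall fun ω h1 h2 h3 => absurd ⟨h1, h2, h3⟩ h
  have H2 : ∀ᵐ ω ∂μ, ∀ u v ε : ℚ, 0 < (u : ℝ) → 0 < (v : ℝ) → 0 < (ε : ℝ) → (u : ℝ) + v + 2 * ε < 2 →
      ∃ᶠ j : ℕ in atTop, cnt A (TT2 u j) (hh2 u v j) ω = 0 ∧ cnt A (TT2 (u + ε) j) (hh2 (u + ε) v j) ω ≠ 0 ∧
        cnt A (TT2 u j) (hh2 u (v + ε) j) ω ≠ 0 := by
    refine ae_all_iff.2 fun u => ae_all_iff.2 fun v => ae_all_iff.2 fun ε => ?_
    by_cases h : 0 < (u : ℝ) ∧ 0 < (v : ℝ) ∧ 0 < (ε : ℝ) ∧ (u : ℝ) + v + 2 * ε < 2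
    · filter_upwards [tri_io (μ := μ) (ℱ := ℱ) hA hQ hprof h.1 h.2.1 h.2.2.1 h.2.2.2] with ω hω _ _ _ _
      exact hω
    · exact Eventually.of_forall fun ω h1 h2 h3 h4 => absurd ⟨h1, h2, h3, h4⟩ h
  filter_upwards [H1, H2] with ω K1 K2
  have hnn : ∀ j, 0 ≤ (pair {k | ω ∈ A k} j).1 ∧ 0 ≤ (pair {k | ω ∈ A k} j).2 := fun j => by
    unfold pair
    exact ⟨by positivity, by positivity⟩
  refine ⟨Set.Subset.antisymm ?_ ?_, ?_⟩
  · intro p hp
    have hp' : MapClusterPt p atTop (pair {k | ω ∈ A k}) := hp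
    rw [mapClusterPt_iff_frequently] at hp'
    refine ⟨?_, ?_, ?_⟩
    · by_contra hcon
      push Not at hcon
      obtain ⟨j, hj⟩ := (hp' {q : ℝ × ℝ | q.1 < 0} ((isOpen_lt continuous_fst continuous_const).mem_nhds hcon)).exists
      exact absurd hj (not_lt.2 (hnn j).1)
    · by_contra hcon
      push Not at hcon
      obtain ⟨j, hj⟩ := (hp' {q : ℝ × ℝ | q.2 < 0} ((isOpen_lt continuous_snd continuous_const).mem_nhds hcon)).exists
      exact absurd hj (not_lt.2 (hnn j).2)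
    · by_contra hcon
      push Not at hcon
      set e : ℝ := (p.1 + p.2 - 2) / 2 with he
      have he0 : 0 < e := by rw [he]; linarith
      obtain ⟨u, hu1, hu2⟩ := exists_rat_btwn (show p.1 - e < p.1 by linarith)
      obtain ⟨v, hv1, hv2⟩ := exists_rat_btwn (show p.2 - e < p.2 by linarith)
      have huv : 2 < (u : ℝ) + v := by linarith
      have hmu : (u : ℝ) ≤ ((max u 0 : ℚ) : ℝ) := by exact_mod_cast le_max_left u 0
      have hmv : (v : ℝ) ≤ ((max v 0 : ℚ) : ℝ) := by exact_mod_cast le_max_left v 0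
      have hmu0 : (0 : ℝ) ≤ ((max u 0 : ℚ) : ℝ) := by exact_mod_cast le_max_right u 0
      have hmv0 : (0 : ℝ) ≤ ((max v 0 : ℚ) : ℝ) := by exact_mod_cast le_max_right v 0
      have h1 := K1 (max u 0) (max v 0) hmu0 hmv0 (by linarith)
      have h2 := hp' {q : ℝ × ℝ | (u : ℝ) < q.1 ∧ (v : ℝ) < q.2}
        (((isOpen_lt continuous_const continuous_fst).inter (isOpen_lt continuous_const continuous_snd)).mem_nhds ⟨hu2, hv2⟩)
      obtain ⟨j, ⟨g1, g2⟩, g3, g4, g5⟩ := (h2.and_eventually (h1.and ((ev_room hmu0).and (tendsto_log.eventually_gt_atTop 0)))).exists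
      have hL : 0 < Real.log (j : ℝ) ^ 2 := by positivity
      obtain ⟨a, a1, a2, a3, a4⟩ := two_of g4 g3
      unfold pair at g1 g2
      rcases Nat.lt_or_gt_of_ne a4 with hlt | hgt
      · have hle : before {k | ω ∈ A k} j ≤ j ^ 2 - a := Nat.sInf_le ⟨by omega, by omega, by
          rw [show j ^ 2 - (j ^ 2 - a) = a by omega]
          exact a1⟩
        have hle2 : before {k | ω ∈ A k} j ≤ flq ((max u 0 : ℚ) : ℝ) j := by omega
        rcases le_or_gt 0 u with hu0 | hu0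
        · rw [max_eq_left hu0] at hle2 hmu0
          have e1 : (flq (u : ℝ) j : ℝ) ≤ u * Real.log (j : ℝ) ^ 2 := Nat.floor_le (by positivity)
          have e2 : (before {k | ω ∈ A k} j : ℝ) ≤ flq (u : ℝ) j := by exact_mod_cast hle2
          rw [lt_div_iff₀ hL] at g1
          linarith
        · rw [max_eq_right hu0.le] at a2
          have e3 : flq ((0 : ℚ) : ℝ) j = 0 := by
            unfold flq
            simp
          rw [e3] at a2
          omega
      · have hle : after {k | ω ∈ A k} j ≤ a - j ^ 2 := Nat.sInf_le ⟨by omega, by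
          rw [show j ^ 2 + (a - j ^ 2) = a by omega]
          exact a1⟩
        have hle2 : after {k | ω ∈ A k} j ≤ flq ((max v 0 : ℚ) : ℝ) j := by omega
        rcases le_or_gt 0 v with hv0 | hv0
        · rw [max_eq_left hv0] at hle2 hmv0
          have e1 : (flq (v : ℝ) j : ℝ) ≤ v * Real.log (j : ℝ) ^ 2 := Nat.floor_le (by positivity)
          have e2 : (after {k | ω ∈ A k} j : ℝ) ≤ flq (v : ℝ) j := by exact_mod_cast hle2
          rw [lt_div_iff₀ hL] at g2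
          linarith
        · rw [max_eq_right hv0.le] at a3
          have e3 : flq ((0 : ℚ) : ℝ) j = 0 := by
            unfold flq
            simp
          rw [e3] at a3
          omega
  · rintro p ⟨hp1, hp2, hp3⟩
    show MapClusterPt p atTop (pair {k | ω ∈ A k})
    rw [mapClusterPt_iff_frequently]
    intro s hs
    obtain ⟨δ', hδ', hball⟩ := Metric.mem_nhds_iff.1 hs
    set δ : ℝ := min δ' 1 with hδ
    have hδ0 : 0 < δ := lt_min hδ' one_pos
    have hδ1 : δ ≤ 1 := min_le_right _ _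
    have hδδ : δ ≤ δ' := min_le_left _ _
    set t : ℝ := δ / 4 with ht
    have ht0 : 0 < t := by positivity
    have ht1 : t ≤ 1 / 4 := by rw [ht]; linarith
    obtain ⟨u, hu1, hu2⟩ := exists_rat_btwn (show (1 - t) * p.1 + t / 2 - t / 8 < (1 - t) * p.1 + t / 2 by linarith)
    obtain ⟨v, hv1, hv2⟩ := exists_rat_btwn (show (1 - t) * p.2 + t / 2 - t / 8 < (1 - t) * p.2 + t / 2 by linarith)
    obtain ⟨ε, he1, he2⟩ := exists_rat_btwn (show t / 8 < t / 4 by linarith)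
    have k1 : 0 ≤ (1 - t) * p.1 := mul_nonneg (by linarith) hp1
    have k2 : 0 ≤ (1 - t) * p.2 := mul_nonneg (by linarith) hp2
    have k3 : (1 - t) * p.1 + (1 - t) * p.2 ≤ (1 - t) * 2 := by
      rw [← mul_add]
      exact mul_le_mul_of_nonneg_left hp3 (by linarith)
    have hu0 : 0 < (u : ℝ) := by linarith
    have hv0 : 0 < (v : ℝ) := by linarith
    have he0 : 0 < (ε : ℝ) := by linarith
    have h1 := K2 u v ε hu0 hv0 he0 (by linarith)
    refine (h1.and_eventually ((ev_room (show 0 ≤ (u : ℝ) + ε by linarith)).and (tendsto_log.eventually_gt_atTop 0))).mono ?_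
    rintro j ⟨⟨g1, g2, g3⟩, g4, g5⟩
    obtain ⟨⟨b1, b2⟩, b3, b4⟩ := box hu0 hv0 he0 g5 g4 g1 g2 g3
    apply hball
    rw [Metric.mem_ball, Prod.dist_eq, max_lt_iff, Real.dist_eq, Real.dist_eq, abs_lt, abs_lt]
    have k4 : t * p.1 ≤ t * 2 := mul_le_mul_of_nonneg_left (by linarith) ht0.le
    have k5 : t * p.2 ≤ t * 2 := mul_le_mul_of_nonneg_left (by linarith) ht0.le
    have k6 : 0 ≤ t * p.1 := by positivity
    have k7 : 0 ≤ t * p.2 := by positivity
    have k8 : 4 * t ≤ δ' := by rw [ht]; linarith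
    refine ⟨⟨?_, ?_⟩, ?_, ?_⟩
    · nlinarith
    · nlinarith
    · nlinarith
    · nlinarith
  · have h3 : (0 : ℝ) ≤ ((3 : ℚ) : ℝ) := by norm_num
    have h0 : (0 : ℝ) ≤ ((0 : ℚ) : ℝ) := by norm_num
    filter_upwards [K1 3 0 h3 h0 (by norm_num), K1 0 3 h0 h3 (by norm_num), ev_room h3, ev_room h0,
      flq_small h3 (show (0 : ℝ) < 1 / 2 by norm_num), eventually_ge_atTop 4] with x g1 g2 g3 g4 g5 g6
    have e3 : flq ((0 : ℚ) : ℝ) x = 0 := by
      unfold flq
      simp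
    have hx : 2 * flq ((3 : ℚ) : ℝ) x ≤ x := by
      have : ((2 * flq ((3 : ℚ) : ℝ) x : ℕ) : ℝ) ≤ x := by push_cast at g5 ⊢; linarith
      exact_mod_cast this
    have hxx : x ≤ x ^ 2 := by nlinarith
    obtain ⟨a, a1, a2, a3, a4⟩ := two_of g3 g1
    obtain ⟨b, b1, b2, b3, b4⟩ := two_of g4 g2
    rw [e3] at a3 b2
    exact ⟨⟨a, a1, by omega, by omega⟩, ⟨b, b1, by omega, by omega⟩⟩
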